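import Pool.Agent.COV.StmtsA

set_option autoImplicit false

/-!
# Row AR2 of the table covm: at most four branch points
-/

namespace Pool.Agent.COV.H10

open Polynomial Pool.Agent.COV

section
variable {k : Type} [Field k]

theorem wr_eq (P Q : k[X]) : wr P Q = -wronskian P Q := by
  rw [wr, wronskian]; ring

theorem wr_sub (A B : k[X]) (l : k) : wr (A - C l * B) B = wr A B := by
  simp only [wr, derivative_sub, derivative_mul, derivative_C, zero_mul, zero_add]
  ring

theorem wr_deg {P Q : k[X]} (h : wr P Q ≠ 0) :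
    (wr P Q).natDegree < P.natDegree + Q.natDegree := by
  rw [wr_eq] at h ⊢
  rw [natDegree_neg]
  exact natDegree_wronskian_lt_add (by simpa using h)

theorem wr_deg2 {P Q : k[X]} {n : ℕ} (h : wr P Q ≠ 0) (hn : 1 ≤ n) (hP : P.natDegree ≤ n)
    (hQ : Q.natDegree ≤ n) : (wr P Q).natDegree + 2 ≤ 2 * n := by
  by_cases hP' : P.natDegree = n
  · by_cases hQ' : Q.natDegree = n
    · have hQ0 : Q.leadingCoeff ≠ 0 := by
        rw [leadingCoeff_ne_zero]
        rintro rfl
        simp at hQ'
        omega
      have h1 : (P - C (P.leadingCoeff / Q.leadingCoeff) * Q).natDegree < n := by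
        have h2 : (P - C (P.leadingCoeff / Q.leadingCoeff) * Q).natDegree ≤ n - 1 := by
          rw [natDegree_le_iff_coeff_eq_zero]
          intro N hN
          rw [coeff_sub, coeff_C_mul]
          rcases Nat.lt_or_ge n N with h3 | h3
          · rw [coeff_eq_zero_of_natDegree_lt (by omega), coeff_eq_zero_of_natDegree_lt (by omega)]
            simp
          · have hNn : N = n := by omega
            have e1 : P.coeff N = P.leadingCoeff := by rw [leadingCoeff, hP', hNn]
            have e2 : Q.coeff N = Q.leadingCoeff := by rw [leadingCoeff, hQ', hNn]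
            rw [e1, e2, div_mul_cancel₀ _ hQ0, sub_self]
        omega
      have h4 := wr_sub P Q (P.leadingCoeff / Q.leadingCoeff)
      have h5 := wr_deg (P := P - C (P.leadingCoeff / Q.leadingCoeff) * Q) (Q := Q)
        (by rw [h4]; exact h)
      rw [h4] at h5
      omega
    · have := wr_deg h
      omega
  · have := wr_deg h
    omega

theorem cop {A B : k[X]} (h : IsCoprime A B) {l m : k} (hlm : l ≠ m) {x : k}
    (h1 : (X - C x) ∣ A - C l * B) : ¬ (X - C x) ∣ A - C m * B := by
  intro h2
  have h3 : (X - C x) ∣ C (m - l) * B := by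
    have := dvd_sub h1 h2
    have e : A - C l * B - (A - C m * B) = C (m - l) * B := by
      rw [C_sub]; ring
    rwa [e] at this
  have hB : (X - C x) ∣ B := by
    rw [dvd_iff_isRoot] at h3 ⊢
    rw [IsRoot, eval_mul, eval_C] at h3
    rcases mul_eq_zero.mp h3 with h4 | h4
    · exact absurd (sub_eq_zero.mp h4).symm hlm
    · exact h4
  have hA : (X - C x) ∣ A := by
    have := dvd_add h1 (hB.mul_left (C l))
    have e : A - C l * B + C l * B = A := by ring
    rwa [e] at this
  have h5 := h.isUnit_of_dvd' hA hB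
  exact (prime_X_sub_C x).not_isUnit h5

/-- a power of a linear factor of the product divides one factor -/
theorem one_factor {A B : k[X]} (h : IsCoprime A B) (x : k) (N : ℕ) (hN : 1 ≤ N) :
    ∀ S : Finset k, (X - C x) ^ N ∣ ∏ l ∈ S, (A - C l * B) →
      ∃ l ∈ S, (X - C x) ^ N ∣ A - C l * B := by
  classical
  intro S
  induction S using Finset.induction_on with
  | empty =>
    intro h1
    exfalso
    rw [Finset.prod_empty] at h1
    have h2 : (X - C x) ∣ (1 : k[X]) := (dvd_pow_self _ (by omega)).trans h1
    exact (prime_X_sub_C x).not_isUnit (isUnit_of_dvd_one h2)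
  | insert a S ha ih =>
    intro h1
    rw [Finset.prod_insert ha] at h1
    by_cases h2 : (X - C x) ∣ A - C a * B
    · refine ⟨a, Finset.mem_insert_self _ _, ?_⟩
      have h3 : ¬ (X - C x) ∣ ∏ l ∈ S, (A - C l * B) := by
        intro h4
        obtain ⟨l, hl, h5⟩ := ((prime_X_sub_C x).dvd_finsetProd_iff _).mp h4
        exact cop h (fun e => ha (by rw [e]; exact hl)) h2 h5
      exact (prime_X_sub_C x).pow_dvd_of_dvd_mul_right N h3 h1
    · obtain ⟨l, hl, h3⟩ := ih ((prime_X_sub_C x).pow_dvd_of_dvd_mul_left N h2 h1)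
      exact ⟨l, Finset.mem_insert_of_mem hl, h3⟩

theorem pow_dvd_wr {P B : k[X]} {x : k} {b : ℕ} (hb : 1 ≤ b) (h : (X - C x) ^ (2 * b) ∣ P) :
    (X - C x) ^ b ∣ wr P B := by
  have h1 : (X - C x) ^ b ∣ P := (pow_dvd_pow _ (by omega)).trans h
  have h2 : (X - C x) ^ b ∣ derivative P := by
    obtain ⟨G, rfl⟩ := h
    have e : 2 * b = (2 * b - 1) + 1 := by omega
    rw [derivative_mul, derivative_X_sub_C_pow]
    apply dvd_add
    · apply Dvd.dvd.mul_right
      apply Dvd.dvd.mul_left
      exact pow_dvd_pow _ (by omega)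
    · apply Dvd.dvd.mul_right
      exact pow_dvd_pow _ (by omega)
  rw [wr]
  exact dvd_sub (h2.mul_right _) (h1.mul_right _)

end

theorem ar2 : Ar2Stmt := by
  intro k _ _ _ f A B V₁ S hf hsf hAB hW hev hV hn hprod
  classical
  set n := max A.natDegree B.natDegree with hndef
  have hf0 : f ≠ 0 := by rintro rfl; simp at hf
  have hprod0 : ∏ l ∈ S, (A - C l * B) ≠ 0 := by
    rw [← hprod]
    exact mul_ne_zero hf0 (pow_ne_zero _ hV)
  have hfac0 : ∀ l ∈ S, A - C l * B ≠ 0 := by
    intro l hl h0
    exact hprod0 (Finset.prod_eq_zero hl h0)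
  -- the degree of `V₁`
  have hdeg : V₁.natDegree ≤ (wr A B).natDegree := by
    have h1 : V₁.roots ≤ (wr A B).roots := by
      rw [Multiset.le_iff_count]
      intro x
      rw [count_roots, count_roots]
      rcases Nat.eq_zero_or_pos (rootMultiplicity x V₁) with h0 | h0
      · omega
      · rw [le_rootMultiplicity_iff hW]
        have h2 : (X - C x) ^ (rootMultiplicity x V₁) ∣ V₁ := pow_rootMultiplicity_dvd V₁ x
        have h3 : (X - C x) ^ (2 * rootMultiplicity x V₁) ∣ ∏ l ∈ S, (A - C l * B) := by
          rw [← hprod, mul_comm 2, pow_mul]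
          exact (pow_dvd_pow_of_dvd h2 2).mul_left _
        obtain ⟨l, hl, h4⟩ := one_factor hAB x _ (by omega) S h3
        have h5 := pow_dvd_wr (B := B) h0 h4
        rwa [wr_sub] at h5
    calc V₁.natDegree = Multiset.card V₁.roots := IsAlgClosed.card_roots_eq_natDegree.symm
      _ ≤ Multiset.card (wr A B).roots := Multiset.card_le_card h1
      _ ≤ (wr A B).natDegree := card_roots' _
  have hA : A.natDegree ≤ n := le_max_left _ _
  have hB : B.natDegree ≤ n := le_max_right _ _
  have hle : ∀ l, (A - C l * B).natDegree ≤ n := by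
    intro l
    refine (natDegree_sub_le _ _).trans (max_le hA ?_)
    exact (natDegree_C_mul_le _ _).trans hB
  have hsum : 5 + 2 * V₁.natDegree = ∑ l ∈ S, (A - C l * B).natDegree := by
    rw [← natDegree_prod _ _ hfac0, ← hprod, natDegree_mul hf0 (pow_ne_zero _ hV), hf,
      natDegree_pow]
  by_cases hall : ∀ l ∈ S, (A - C l * B).natDegree = n
  · have h1 : ∑ l ∈ S, (A - C l * B).natDegree = S.card * n := by
      rw [Finset.sum_congr rfl hall, Finset.sum_const, smul_eq_mul]
    have h2 := wr_deg2 hW (by omega) hA hB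
    rw [h1] at hsum
    by_contra h5
    have h6 : 5 * n ≤ S.card * n := Nat.mul_le_mul_right n (by omega)
    omega
  · push Not at hall
    obtain ⟨l₀, hl₀, hm⟩ := hall
    have hmn : (A - C l₀ * B).natDegree < n := lt_of_le_of_ne (hle l₀) hm
    have hBn : B.natDegree = n := by
      by_contra hBn
      have hB' : B.natDegree < n := lt_of_le_of_ne hB hBn
      have hA' : A.natDegree = n := by omega
      apply hm
      have h1 : (C l₀ * B).natDegree < A.natDegree := by
        rw [hA']
        exact lt_of_le_of_lt (natDegree_C_mul_le _ _) hB'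
      rw [natDegree_sub_eq_left_of_natDegree_lt h1, hA']
    have hoth : ∀ l ∈ S.erase l₀, (A - C l * B).natDegree = n := by
      intro l hl
      have hne : l₀ - l ≠ 0 := sub_ne_zero.mpr (Finset.ne_of_mem_erase hl).symm
      have e : A - C l * B = (A - C l₀ * B) + C (l₀ - l) * B := by
        rw [C_sub]; ring
      have h1 : (C (l₀ - l) * B).natDegree = n := by
        rw [natDegree_C_mul hne, hBn]
      rw [e, natDegree_add_eq_right_of_natDegree_lt (by rw [h1]; exact hmn), h1]
    have h1 : ∑ l ∈ S, (A - C l * B).natDegree =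
        (A - C l₀ * B).natDegree + (S.card - 1) * n := by
      rw [← Finset.add_sum_erase S _ hl₀, Finset.sum_congr rfl hoth, Finset.sum_const,
        smul_eq_mul, Finset.card_erase_of_mem hl₀]
    rw [h1] at hsum
    have h2 := wr_deg (P := A - C l₀ * B) (Q := B) (by rw [wr_sub]; exact hW)
    rw [wr_sub, hBn] at h2
    by_contra h5
    obtain ⟨t, ht⟩ := hev
    have h6 : 5 * n ≤ (S.card - 1) * n := Nat.mul_le_mul_right n (by omega)
    omega

end Pool.Agent.COV.H10
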