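import Pool.Agent.COV.StmtsB

set_option autoImplicit false

/-!
# Row GNL of the table covm: rules for `Gn`
-/

namespace Pool.Agent.COV.H10

open Pool.Agent.COV Pool.Agent.KDT.Z

theorem tht_neg {F : Type} [Field F] {f : Polynomial F} {J : Type} [AddCommGroup J]
    {th : Pt f → J} {cl : (Fin 4 → F) → J} (hJ : JG f J th cl) {c : J} (h : Tht th c) :
    Tht th (-c) := by
  rcases h with rfl | ⟨z, rfl⟩
  · left; simp
  · right; exact ⟨z.neg, (hJ.th_neg z).symm⟩

theorem gnl (hI : IgdStmt) : GnlStmt := by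
  intro F _ f J _ th cl hJ H0
  classical
  refine ⟨?_, ?_, ?_, ?_⟩
  · rintro P Q ⟨C1, h1⟩ ⟨C2, h2⟩
    refine ⟨C1 ∪ C2, fun h hh hx => ⟨h1 h hh fun x hxC => hx x ?_, h2 h hh fun x hxC => hx x ?_⟩⟩
    · exact Finset.mem_union_left _ hxC
    · exact Finset.mem_union_right _ hxC
  · rintro P k hk ⟨C, h1⟩
    refine ⟨C.image (fun x => x + k), fun h hh hx => h1 (h + k) (H0.add_mem hh hk) fun x hxC => ?_⟩
    have h2 := hx (x + k) (Finset.mem_image_of_mem _ hxC)
    have e : x + (h + k) = x + k + h := by abel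
    rw [e]
    exact h2
  · rintro P ⟨C, h1⟩
    refine ⟨C.image (fun x => -x), fun h hh hx => h1 (-h) (H0.neg_mem hh) fun x hxC => ?_⟩
    have h2 := hx (-x) (Finset.mem_image_of_mem _ hxC)
    intro h3
    apply h2
    have h4 := tht_neg hJ h3
    have e : -(x + -h) = -x + h := by abel
    rwa [e] at h4
  · rintro hinf P ⟨C, h1⟩
    exact (hI F f J th cl hJ H0 hinf C).mono fun h hh => ⟨hh.1, h1 h hh.1 hh.2⟩

end Pool.Agent.COV.H10
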